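import Pool.Agent.Q5.AI.Gen

/-!
# Dilations of one process
-/

set_option autoImplicit false

open Filter Topology Set Complex MeasureTheory
open Pool.Agent.Q5.AP Pool.Agent.Q5.LI
open Pool.Agent.TH270.MS (BM)

namespace Pool.Agent.Q5.AI

/-- a family of dilations `a i` with labelled frequencies `v l = a i * t`, `m t ≠ 0` -/
structure Lab {ι Λ : Type} (m : ℝ → ℕ) (a : ι → ℝ) (v : Λ → ℝ) (adm : ι → Λ → Prop) : Prop where
  apos : ∀ i, 0 < a i
  vpos : ∀ l, 0 < v l
  gam : ∀ i l, adm i l → m (v l / a i) ≠ 0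
  cov : ∀ i t, 0 < t → m t ≠ 0 → ∃ l, adm i l ∧ v l = a i * t
  one : ∀ i l l', adm i l → adm i l' → v l = v l' → l = l'
  act : ∀ l, ∃ i, adm i l

variable {ι Λ : Type} {m : ℝ → ℕ} {a : ι → ℝ} {v : Λ → ℝ} {adm : ι → Λ → Prop}

open Classical in
/-- the coefficient of the label `l` in the process `i` -/
noncomputable def dc (m : ℝ → ℕ) (a : ι → ℝ) (v : Λ → ℝ) (adm : ι → Λ → Prop) (i : ι) (l : Λ) : ℂ :=
  if adm i l then (m (v l / a i) : ℂ) / ((v l / a i : ℝ) : ℂ) else 0

/-- **The joint random model** for the functions `E(x^(a i))` -/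
def LabModel (m : ℝ → ℕ) (a : ι → ℝ) (v : Λ → ℝ) (adm : ι → Λ → Prop) (E : ℝ → ℝ) : Prop :=
  ∀ (s : Finset ι) (k : ℕ) (h ξ : ι → Fin k → ℝ), (∀ i j, 0 ≤ h i j) →
    ∃ L : ℂ, HasProd (fun l : Λ => ((bz (∑ i ∈ s, dc m a v adm i l * kf (h i) (ξ i) (v l)) : ℝ) : ℂ)) L ∧
      Tendsto (fun X : ℝ => (∫ x in Real.exp 1..X,
        exp (((∑ i ∈ s, ∑ j, ξ i j * E ((x * Real.exp (h i j)) ^ (a i)) : ℝ) : ℂ) * I) / x) / Real.log X)
        atTop (𝓝 L)

theorem cm_ne {m : ℝ → ℕ} {t : ℝ} (ht : 0 < t) : cm m t ≠ 0 ↔ m t ≠ 0 := by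
  rw [← norm_ne_zero_iff, norm_cm, abs_of_pos ht]
  constructor
  · intro h h0
    rw [h0] at h
    simp at h
  · intro h
    have h4 : (m t : ℝ) ≠ 0 := by exact_mod_cast h
    positivity

open Classical in
theorem data_of {W : ℝ → ℝ} {V : ℝ} (P : Par (fun u => (cut W u : ℂ)) (cm m) V) (Lb : Lab m a v adm) :
    Data (fun i u => cut W (a i * u)) (fun i t => cm m (t / a i)) (fun _ => V) v
      (fun i l => if adm i l then cm m (v l / a i) else 0) where
  par i := P.dil (Lb.apos i)
  cj i t := by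
    rw [neg_div, cm_conj (even_of_par P)]
  zero i := by
    rw [zero_div, cm_zero]
  pos := Lb.vpos
  val i l h := by
    split_ifs at h ⊢ with h1
    · rfl
    · exact absurd rfl h
  cov i t ht h := by
    have h0 : 0 < t / a i := div_pos ht (Lb.apos i)
    obtain ⟨l, h1, h2⟩ := Lb.cov i (t / a i) h0 ((cm_ne h0).1 h)
    have h3 : v l = t := by
      rw [h2]
      exact mul_div_cancel₀ _ (Lb.apos i).ne'
    refine ⟨l, h3, ?_⟩
    rw [if_pos h1, h3]
    exact h
  one i l l' h1 h2 h := by
    have h3 : adm i l := by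
      by_contra h4
      exact h1 (if_neg h4)
    have h5 : adm i l' := by
      by_contra h4
      exact h2 (if_neg h4)
    exact Lb.one i l l' h3 h5 h
  act l := by
    obtain ⟨i, hi⟩ := Lb.act l
    refine ⟨i, ?_⟩
    rw [if_pos hi]
    exact (cm_ne (div_pos (Lb.vpos l) (Lb.apos i))).2 (Lb.gam i l hi)

open Classical in
theorem dc_eq (i : ι) (l : Λ) :
    (if adm i l then cm m (v l / a i) else 0) = -I * dc m a v adm i l := by
  unfold dc cm
  split_ifs
  · ring
  · rw [mul_zero]

open Classical in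
theorem labModel_iff {W : ℝ → ℝ} (hW : BM W) (ha : ∀ i, 0 < a i) :
    LabModel m a v adm (fun x => cut W (Real.log x)) ↔
      JM (fun i u => cut W (a i * u)) v (fun i l => if adm i l then cm m (v l / a i) else 0) := by
  unfold LabModel JM
  refine forall_congr' fun s => forall_congr' fun k => forall_congr' fun h => forall_congr' fun ξ =>
    forall_congr' fun hh => ?_
  refine exists_congr fun L => ?_
  have eprod : ∀ l : Λ, bz (∑ i ∈ s, dc m a v adm i l * kf (h i) (ξ i) (v l)) =
      bz (∑ i ∈ s, (if adm i l then cm m (v l / a i) else 0) * kf (h i) (ξ i) (v l)) := by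
    intro l
    refine bz_norm ?_
    simp only [dc_eq, mul_assoc, ← Finset.mul_sum]
    rw [norm_mul, norm_neg, Complex.norm_I, one_mul]
  simp only [eprod]
  refine and_congr_right' ?_
  have hL2 : Pool.Agent.Q5.AP.L2 fun u => ((∑ i ∈ s, ∑ j, ξ i j * cut W (a i * (u + h i j)) : ℝ) : ℂ) := by
    have h0 : ∀ i, Pool.Agent.Q5.AP.L2 fun u => (cut W (a i * u) : ℂ) := fun i =>
      (Pool.Agent.Q5.AP.cut_l2 hW).dil (ha i)
    have h1 : ∀ i, ∀ s : Finset (Fin k),
        Pool.Agent.Q5.AP.L2 fun u => ((∑ j ∈ s, ξ i j * cut W (a i * (u + h i j)) : ℝ) : ℂ) := by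
      intro i s
      induction s using Finset.induction_on with
      | empty =>
        simp only [Finset.sum_empty]
        exact Pool.Agent.Q5.AP.l2_cont continuous_const
      | insert j s hj ih =>
        have h2 := ((L2.shift (h0 i) (hh i j)).const_mul (ξ i j : ℂ)).add ih
        simp only [Finset.sum_insert hj]
        convert! h2 using 1
        funext u
        push_cast
        rfl
    clear eprod
    induction s using Finset.induction_on with
    | empty =>
      simp only [Finset.sum_empty]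
      exact Pool.Agent.Q5.AP.l2_cont continuous_const
    | insert i s hi ih =>
      have h2 := (h1 i Finset.univ).add ih
      simp only [Finset.sum_insert hi]
      convert! h2 using 1
      funext u
      push_cast
      rfl
  have hint : ∀ T : ℝ, 0 < T → IntervalIntegrable
      (fun u => exp (((∑ i ∈ s, ∑ j, ξ i j * cut W (a i * (u + h i j)) : ℝ) : ℂ) * I)) volume 0 T :=
    fun T hT => Pool.Agent.Q5.AP.exp_int (g := fun u => ∑ i ∈ s, ∑ j, ξ i j * cut W (a i * (u + h i j))) hL2 hT
  unfold M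
  rw [Pool.Agent.Q5.BP.mean_from_one hint]
  have key : ∀ T : ℝ, 1 ≤ T →
      (∫ u in (1 : ℝ)..T, exp (((∑ i ∈ s, ∑ j, ξ i j * cut W (a i * (u + h i j)) : ℝ) : ℂ) * I)) =
      ∫ x in Real.exp 1..Real.exp T,
        exp (((∑ i ∈ s, ∑ j, ξ i j * cut W (Real.log ((x * Real.exp (h i j)) ^ (a i))) : ℝ) : ℂ) * I) / x := by
    intro T hT
    rw [← Pool.Agent.Q5.BP.cov_iiC
      (fun u => exp (((∑ i ∈ s, ∑ j, ξ i j * cut W (a i * (u + h i j)) : ℝ) : ℂ) * I)) hT]
    refine intervalIntegral.integral_congr fun y hy => ?_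
    rw [uIcc_of_le (Real.exp_le_exp.2 hT)] at hy
    have hy0 : 0 < y := (Real.exp_pos 1).trans_le hy.1
    congr 3
    congr 1
    refine Finset.sum_congr rfl fun i _ => Finset.sum_congr rfl fun j _ => ?_
    rw [Real.log_rpow (by positivity), Real.log_mul hy0.ne' (Real.exp_pos _).ne', Real.log_exp]
  constructor
  · intro h1
    have h2 := h1.comp Real.tendsto_exp_atTop
    refine h2.congr' ?_
    filter_upwards [eventually_ge_atTop 1] with T hT
    rw [Function.comp_apply, key T hT, Real.log_exp]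
  · intro h1
    have h2 := h1.comp Real.tendsto_log_atTop
    refine h2.congr' ?_
    filter_upwards [eventually_ge_atTop (Real.exp 1)] with X hX
    have hl : 1 ≤ Real.log X := Pool.Agent.TH270.MS.one_le_log hX
    rw [Function.comp_apply, key _ hl, Real.exp_log ((Real.exp_pos 1).trans_le hX)]

/-- **Linear independence of the frequencies and the joint random model of the dilations.** -/
theorem lab_iff {W : ℝ → ℝ} {V : ℝ} (hW : BM W) (P : Par (fun u => (cut W u : ℂ)) (cm m) V)
    (Lb : Lab m a v adm) :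
    LinearIndependent ℚ v ↔ LabModel m a v adm fun x => cut W (Real.log x) := by
  classical
  rw [labModel_iff hW Lb.apos]
  exact (data_of P Lb).li_iff

end Pool.Agent.Q5.AI
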