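import Pool.Agent.Q5.AI.Lab

/-!
# Algebraic independence and linear independence over larger fields
-/

set_option autoImplicit false

open Filter Topology Set Complex MeasureTheory

namespace Pool.Agent.Q5.AI

variable {G : Set ℝ}

/-- the value of a monomial in the elements of `G` -/
noncomputable def mono (μ : G →₀ ℕ) : ℝ := μ.prod fun g n => (g : ℝ) ^ n

theorem mono_pos (hG : ∀ g ∈ G, 0 < g) (μ : G →₀ ℕ) : 0 < mono μ :=
  Finset.prod_pos fun g _ => pow_pos (hG g g.2) _

theorem mono_add (μ ν : G →₀ ℕ) : mono (μ + ν) = mono μ * mono ν := by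
  unfold mono
  exact Finsupp.prod_add_index' (fun g => pow_zero _) fun g a b => pow_add _ _ _

theorem mono_single (g : G) : mono (Finsupp.single g 1) = g := by
  unfold mono
  rw [Finsupp.prod_single_index (h := fun (g : G) n => (g : ℝ) ^ n) (pow_zero _), pow_one]

theorem mono_zero : mono (0 : G →₀ ℕ) = 1 := by
  unfold mono
  exact Finsupp.prod_zero_index

/-- `μ = κ g` for an element `g` of `G` -/
def step (κ : G →₀ ℕ) (μ : {μ : G →₀ ℕ // μ ≠ 0}) : Prop :=
  ∃ g : G, (μ : G →₀ ℕ) = κ + Finsupp.single g 1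

theorem lab_mono {m : ℝ → ℕ} (hG : G = {t : ℝ | 0 < t ∧ m t ≠ 0}) :
    Lab m (fun κ : G →₀ ℕ => mono κ) (fun μ : {μ : G →₀ ℕ // μ ≠ 0} => mono (μ : G →₀ ℕ)) step := by
  have hmem : ∀ g ∈ G, 0 < g ∧ m g ≠ 0 := fun g hg => by
    rw [hG] at hg
    exact hg
  have hpos : ∀ g ∈ G, 0 < g := fun g hg => (hmem g hg).1
  have hval : ∀ (κ : G →₀ ℕ) (g : G), mono (κ + Finsupp.single g 1) / mono κ = g := by
    intro κ g
    rw [mono_add, mono_single, mul_div_cancel_left₀ _ (mono_pos hpos κ).ne']
  refine ⟨fun κ => mono_pos hpos κ, fun μ => mono_pos hpos _, ?_, ?_, ?_, ?_⟩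
  · rintro κ μ ⟨g, hg⟩
    simp only [hg]
    rw [hval]
    exact (hmem g g.2).2
  · intro κ t ht hm
    have h1 : t ∈ G := by
      rw [hG]
      exact ⟨ht, hm⟩
    refine ⟨⟨κ + Finsupp.single ⟨t, h1⟩ 1, fun h0 => ?_⟩, ⟨⟨t, h1⟩, rfl⟩, ?_⟩
    · have h2 := DFunLike.congr_fun h0 ⟨t, h1⟩
      simp at h2
    · simp only
      rw [mono_add, mono_single]
  · rintro κ μ μ' ⟨g, hg⟩ ⟨g', hg'⟩ h
    simp only [hg, hg'] at h
    rw [mono_add, mono_add, mono_single, mono_single] at h
    have h1 : (g : ℝ) = g' := mul_left_cancel₀ (mono_pos hpos κ).ne' h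
    have h2 : g = g' := Subtype.ext h1
    exact Subtype.ext (by rw [hg, hg', h2])
  · rintro ⟨μ, hμ⟩
    obtain ⟨g, hg⟩ := Finsupp.ne_iff.1 hμ
    refine ⟨μ - Finsupp.single g 1, g, ?_⟩
    simp only
    rw [tsub_add_cancel_of_le]
    rw [Finsupp.single_le_iff]
    exact Nat.one_le_iff_ne_zero.2 (by simpa using hg)

theorem aeval_mono (μ : G →₀ ℕ) (q : ℚ) :
    MvPolynomial.aeval (fun g : G => (g : ℝ)) (MvPolynomial.monomial μ q) = (q : ℝ) * mono μ := by
  rw [MvPolynomial.aeval_monomial]
  rfl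

/-- algebraic independence is the linear independence of the monomials of positive degree -/
theorem algInd_iff : AlgebraicIndependent ℚ (fun g : G => (g : ℝ)) ↔
    LinearIndependent ℚ fun μ : {μ : G →₀ ℕ // μ ≠ 0} => mono (μ : G →₀ ℕ) := by
  classical
  constructor
  · intro h
    rw [algebraicIndependent_iff] at h
    rw [linearIndependent_iff']
    intro s q hq μ hμ
    set P : MvPolynomial G ℚ := ∑ ν ∈ s, MvPolynomial.monomial (ν : G →₀ ℕ) (q ν) with hP
    have h1 : MvPolynomial.aeval (fun g : G => (g : ℝ)) P = 0 := by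
      rw [hP, map_sum, ← hq]
      refine Finset.sum_congr rfl fun ν _ => ?_
      rw [aeval_mono, Rat.smul_def]
    have h2 := h P h1
    have h3 : MvPolynomial.coeff (μ : G →₀ ℕ) P = q μ := by
      rw [hP, MvPolynomial.coeff_sum]
      simp only [MvPolynomial.coeff_monomial]
      rw [Finset.sum_eq_single μ]
      · rw [if_pos rfl]
      · intro ν _ hne
        rw [if_neg fun h4 => hne (Subtype.ext h4)]
      · intro h4
        exact absurd hμ h4
    rw [← h3, h2, MvPolynomial.coeff_zero]
  · intro h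
    rw [linearIndependent_iff'] at h
    have key : ∀ Q : MvPolynomial G ℚ, (∀ μ ∈ Q.support, μ ≠ 0) →
        MvPolynomial.aeval (fun g : G => (g : ℝ)) Q = 0 → Q = 0 := by
      intro Q hQ hQ0
      have h1 : ∑ μ ∈ Q.support, (MvPolynomial.coeff μ Q) • mono μ = 0 := by
        rw [← hQ0]
        conv_rhs => rw [Q.as_sum, map_sum]
        refine Finset.sum_congr rfl fun μ _ => ?_
        rw [aeval_mono, Rat.smul_def]
      have h2 := h (Q.support.subtype fun μ => μ ≠ 0) (fun μ => MvPolynomial.coeff (μ : G →₀ ℕ) Q) (by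
        rw [Finset.sum_subtype_of_mem (f := fun μ => MvPolynomial.coeff μ Q • mono μ) hQ]
        exact h1)
      ext μ
      rw [MvPolynomial.coeff_zero]
      by_contra h3
      have h4 : μ ∈ Q.support := MvPolynomial.mem_support_iff.2 h3
      exact h3 (h2 ⟨μ, hQ μ h4⟩ (Finset.mem_subtype.2 h4))
    rw [algebraicIndependent_iff]
    intro P hP
    by_cases hne : Nonempty G
    · obtain ⟨g₀⟩ := hne
      have h1 := key (MvPolynomial.X g₀ * P) (by
        intro μ hμ h0
        rw [MvPolynomial.mem_support_iff, h0, MvPolynomial.coeff_X_mul', if_neg (by simp)] at hμ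
        exact hμ rfl) (by rw [map_mul, hP, mul_zero])
      rcases mul_eq_zero.1 h1 with h2 | h2
      · exact absurd h2 (MvPolynomial.X_ne_zero g₀)
      · exact h2
    · rw [not_nonempty_iff] at hne
      rw [MvPolynomial.eq_C_of_isEmpty P] at hP ⊢
      rw [MvPolynomial.aeval_C] at hP
      have h2 : MvPolynomial.coeff 0 P = 0 := by
        have h3 : ((MvPolynomial.coeff 0 P : ℚ) : ℝ) = 0 := hP
        exact_mod_cast h3
      rw [h2, map_zero]

theorem lab_prod {m : ℝ → ℕ} (hG : G = {t : ℝ | 0 < t ∧ m t ≠ 0}) {n : ℕ} {a : Fin n → ℝ}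
    (ha : ∀ i, 0 < a i) :
    Lab m a (fun p : Fin n × G => a p.1 * p.2) (fun i p => p.1 = i) := by
  have hmem : ∀ g ∈ G, 0 < g ∧ m g ≠ 0 := fun g hg => by
    rw [hG] at hg
    exact hg
  have hpos : ∀ g ∈ G, 0 < g := fun g hg => (hmem g hg).1
  refine ⟨ha, fun p => mul_pos (ha _) (hpos _ p.2.2), ?_, ?_, ?_, ?_⟩
  · rintro i ⟨j, g⟩ h
    simp only at h ⊢
    rw [h, mul_div_cancel_left₀ _ (ha i).ne']
    exact (hmem g g.2).2
  · intro i t ht hm
    have h1 : t ∈ G := by
      rw [hG]
      exact ⟨ht, hm⟩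
    exact ⟨(i, ⟨t, h1⟩), rfl, rfl⟩
  · rintro i ⟨j, g⟩ ⟨j', g'⟩ h h' h2
    simp only at h h' h2
    rw [h, h'] at h2
    have h3 : (g : ℝ) = g' := mul_left_cancel₀ (ha i).ne' h2
    rw [h, h', Subtype.ext h3]
  · rintro ⟨j, g⟩
    exact ⟨j, rfl⟩

/-- linear independence over a field of real numbers -/
theorem kli_iff (K : Subfield ℝ) : LinearIndepOn K id G ↔
    ∀ (n : ℕ) (a : Fin n → ℝ), (∀ i, 0 < a i ∧ a i ∈ K) → LinearIndependent ℚ a →
      LinearIndependent ℚ fun p : Fin n × G => a p.1 * (p.2 : ℝ) := by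
  classical
  constructor
  · intro h n a ha hli
    have h1 : LinearIndependent K fun g : G => (g : ℝ) := h
    have h2 : LinearIndependent ℚ fun i : Fin n => (⟨a i, (ha i).2⟩ : K) := by
      refine LinearIndependent.of_comp (K.subtype.toAddMonoidHom.toRatLinearMap) ?_
      exact hli
    exact linearIndependent_smul h2 h1
  · intro h
    show LinearIndependent K fun g : G => (g : ℝ)
    rw [linearIndependent_iff']
    intro s k hk g hg
    -- the span of the coefficients
    set S : Submodule ℚ ℝ := Submodule.span ℚ ((s.image fun g => ((k g : K) : ℝ) : Finset ℝ) : Set ℝ) with hS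
    have : Module.Finite ℚ S := Module.Finite.span_finset ℚ _
    set b := Module.finBasis ℚ S with hb
    set n := Module.finrank ℚ S
    have hSK : ∀ x ∈ S, x ∈ K := by
      intro x hx
      rw [hS] at hx
      refine Submodule.span_induction (p := fun x _ => x ∈ K) ?_ K.zero_mem (fun x y _ _ hx hy => K.add_mem hx hy)
        (fun q x _ hx => ?_) hx
      · intro x hx
        rw [Finset.mem_coe, Finset.mem_image] at hx
        obtain ⟨g, -, rfl⟩ := hx
        exact (k g).2
      · rw [Rat.smul_def]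
        exact K.mul_mem (SubfieldClass.ratCast_mem K q) hx
    have hb0 : ∀ i, ((b i : S) : ℝ) ≠ 0 := fun i h0 => b.ne_zero i (Subtype.ext h0)
    set w : Fin n → ℚˣ := fun i => if 0 < ((b i : S) : ℝ) then 1 else -1 with hw
    set a : Fin n → ℝ := w • fun i => ((b i : S) : ℝ) with ha
    have hli : LinearIndependent ℚ fun i => ((b i : S) : ℝ) :=
      b.linearIndependent.map' S.subtype (Submodule.ker_subtype S)
    have hli2 : LinearIndependent ℚ a := hli.units_smul w
    have hai : ∀ i, a i = ((w i : ℚ) : ℝ) * ((b i : S) : ℝ) := by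
      intro i
      show (w i : ℚ) • ((b i : S) : ℝ) = _
      rw [Rat.smul_def]
    have hapos : ∀ i, 0 < a i := by
      intro i
      rw [hai, hw]
      simp only
      split_ifs with h0
      · simpa using h0
      · have h1 : ((b i : S) : ℝ) < 0 := lt_of_le_of_ne (not_lt.1 h0) (hb0 i)
        simpa using h1
    have haK : ∀ i, a i ∈ K := by
      intro i
      rw [hai]
      exact K.mul_mem (SubfieldClass.ratCast_mem K _) (hSK _ (b i).2)
    have hww : ∀ i, ((w i : ℚ) : ℝ) * ((w i : ℚ) : ℝ) = 1 := by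
      intro i
      rw [hw]
      simp only
      split_ifs <;> simp
    have h1 := h n a (fun i => ⟨hapos i, haK i⟩) hli2
    rw [linearIndependent_iff'] at h1
    have hkS : ∀ g ∈ s, ((k g : K) : ℝ) ∈ S := fun g hg =>
      Submodule.subset_span (Finset.mem_coe.2 (Finset.mem_image_of_mem _ hg))
    set q : Fin n × G → ℚ := fun p => if hp : p.2 ∈ s then b.repr ⟨_, hkS p.2 hp⟩ p.1 * w p.1 else 0 with hq
    have hrep : ∀ g ∈ s, ∑ i, (q (i, g) : ℝ) * a i = ((k g : K) : ℝ) := by
      intro g hg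
      have h2 := congrArg (Subtype.val) (b.sum_repr ⟨_, hkS g hg⟩)
      rw [Submodule.coe_sum] at h2
      refine Eq.trans (Finset.sum_congr rfl fun i _ => ?_) h2
      rw [hq]
      simp only
      rw [dif_pos hg, hai, Submodule.coe_smul, Rat.smul_def]
      push_cast
      linear_combination ((b.repr ⟨_, hkS g hg⟩ i : ℚ) : ℝ) * ((b i : S) : ℝ) * hww i
    have h3 := h1 (Finset.univ ×ˢ s) q (by
      rw [Finset.sum_product_right]
      rw [← hk]
      refine Finset.sum_congr rfl fun g hg => ?_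
      have e : (k g) • (g : ℝ) = ((k g : K) : ℝ) * g := rfl
      rw [e, ← hrep g hg, Finset.sum_mul]
      refine Finset.sum_congr rfl fun i _ => ?_
      rw [Rat.smul_def]
      ring)
    have h4 : ((k g : K) : ℝ) = 0 := by
      rw [← hrep g hg]
      refine Finset.sum_eq_zero fun i _ => ?_
      rw [h3 (i, g) (Finset.mem_product.2 ⟨Finset.mem_univ _, hg⟩)]
      simp
    exact Subtype.ext h4

/-- algebraic independence implies linear independence over the real algebraic numbers -/
theorem li_of_algInd (h : AlgebraicIndependent ℚ (fun g : G => (g : ℝ))) :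
    LinearIndepOn (algebraicClosure ℚ ℝ).toSubfield id G :=
  (AlgebraicIndependent.algebraicClosure h).linearIndependent

end Pool.Agent.Q5.AI
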